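import Mathlib
import Pool.Agent.helper35.DR.SpecZ
import Pool.Agent.helper35.DR.SpecA

set_option autoImplicit false

namespace Pool.Agent.DR

open Pool.Agent.helper58.DC Pool.Agent.DI

/-- coordinates of a central direct factor -/
theorem ZND_coord (A : Type) [Group A] [Finite A] (N V : Subgroup A)
    (hc : ∀ a : A, ∀ x ∈ N, a * x = x * a) (hV : IsCpl N V) :
    ∃ (f : A →* V) (g : A →* N), (∀ v : V, f (v : A) = v) ∧ (∀ v : V, g (v : A) = 1) ∧
      (∀ x : N, f (x : A) = 1) ∧ (∀ x : N, g (x : A) = x) := by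
  have comm : ∀ (v : V) (x : N), Commute (V.subtype v) (N.subtype x) := fun v x => hc v x x.2
  set F : V × N →* A := V.subtype.noncommCoprod N.subtype comm with hF
  have hinj : Function.Injective F := by
    rw [hF, MonoidHom.noncommCoprod_injective]
    refine ⟨V.subtype_injective, N.subtype_injective, ?_⟩
    rw [Subgroup.range_subtype, Subgroup.range_subtype, disjoint_iff]
    exact hV.1
  have hsurj : Function.Surjective F := by
    rw [← MonoidHom.range_eq_top, hF, MonoidHom.noncommCoprod_range, Subgroup.range_subtype,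
      Subgroup.range_subtype]
    exact hV.2
  let e : V × N ≃* A := MulEquiv.ofBijective F ⟨hinj, hsurj⟩
  have he : ∀ (v : V) (x : N), e (v, x) = (v : A) * (x : A) := fun v x => rfl
  refine ⟨(MonoidHom.fst V N).comp e.symm.toMonoidHom, (MonoidHom.snd V N).comp
    e.symm.toMonoidHom, ?_, ?_, ?_, ?_⟩
  · intro v
    have h1 : e.symm (v : A) = (v, 1) := by
      rw [MulEquiv.symm_apply_eq, he]; simp
    show (e.symm (v : A)).1 = v
    rw [h1]
  · intro v
    have h1 : e.symm (v : A) = (v, 1) := by
      rw [MulEquiv.symm_apply_eq, he]; simp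
    show (e.symm (v : A)).2 = 1
    rw [h1]
  · intro x
    have h1 : e.symm (x : A) = (1, x) := by
      rw [MulEquiv.symm_apply_eq, he]; simp
    show (e.symm (x : A)).1 = 1
    rw [h1]
  · intro x
    have h1 : e.symm (x : A) = (1, x) := by
      rw [MulEquiv.symm_apply_eq, he]; simp
    show (e.symm (x : A)).2 = x
    rw [h1]

/-- bilinear cocycles -/
theorem ZND_coc (A : Type) [Group A] (n r : ℕ) [NeZero r] (hrn : r ∣ n) (s t : A → ZMod r)
    (hs : ∀ a b, s (a * b) = s a + s b) (ht : ∀ a b, t (a * b) = t a + t b) :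
    (fun a b => Circle.toUnits (ZMod.toCircle (s a * t b))) ∈ Bn A n := by
  have hs1 : s 1 = 0 := by
    have := hs 1 1
    rw [mul_one] at this
    have h2 := congrArg (fun z => z - s 1) this
    simpa using h2.symm
  have ht1 : t 1 = 0 := by
    have := ht 1 1
    rw [mul_one] at this
    have h2 := congrArg (fun z => z - t 1) this
    simpa using h2.symm
  refine ⟨⟨?_, ?_, ?_⟩, ?_⟩
  · intro a b c
    show Circle.toUnits (ZMod.toCircle (s a * t b)) * Circle.toUnits (ZMod.toCircle (s (a * b) * t c))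
      = Circle.toUnits (ZMod.toCircle (s a * t (b * c))) *
        Circle.toUnits (ZMod.toCircle (s b * t c))
    rw [← map_mul Circle.toUnits, ← map_mul Circle.toUnits, ← AddChar.map_add_eq_mul,
      ← AddChar.map_add_eq_mul, hs, ht]
    congr 2
    ring
  · intro a
    show Circle.toUnits (ZMod.toCircle (s 1 * t a)) = 1
    rw [hs1, zero_mul, AddChar.map_zero_eq_one, map_one]
  · intro a
    show Circle.toUnits (ZMod.toCircle (s a * t 1)) = 1
    rw [ht1, mul_zero, AddChar.map_zero_eq_one, map_one]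
  · intro a b
    show Circle.toUnits (ZMod.toCircle (s a * t b)) ^ n = 1
    obtain ⟨m, rfl⟩ := hrn
    rw [← map_pow, ← AddChar.map_nsmul_eq_pow]
    have h1 : (r * m) • (s a * t b) = 0 := by
      rw [nsmul_eq_mul, Nat.cast_mul, ZMod.natCast_self, zero_mul, zero_mul]
    rw [h1, AddChar.map_zero_eq_one, map_one]

theorem ZND (hGCC : GCC_stmt) : ZND_stmt := by
  intro A _ _ N hN hc V hV hθ hall
  obtain ⟨θ, hθ⟩ := hθ
  obtain ⟨hpr, -, -⟩ := hGCC A N hN hc
  obtain ⟨f, g, hf1, hg1, hf2, hg2⟩ := ZND_coord A N V hc hV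
  set r : ℕ := Nat.card N with hr
  have hfact : Fact r.Prime := ⟨hpr⟩
  have hne : NeZero r := ⟨hpr.ne_zero⟩
  have hcyc : IsCyclic N := isCyclic_of_prime_card hr.symm
  let L : N ≃* Multiplicative (ZMod r) := (zmodCyclicMulEquiv hcyc).symm
  have hrn : r ∣ r ^ padicValNat r (Nat.card A) := by
    have h1 : 1 ≤ padicValNat r (Nat.card A) :=
      one_le_padicValNat_of_dvd Nat.card_pos.ne' (Subgroup.card_subgroup_dvd_card N)
    exact dvd_pow_self r (by omega)
  set n := r ^ padicValNat r (Nat.card A) with hn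
  let s : A → ZMod r := fun a => Multiplicative.toAdd (L (θ (f a)))
  let t : A → ZMod r := fun a => Multiplicative.toAdd (L (g a))
  have hs : ∀ a b, s (a * b) = s a + s b := by
    intro a b
    show Multiplicative.toAdd (L (θ (f (a * b)))) = _
    rw [map_mul, map_mul, map_mul, toAdd_mul]
  have ht : ∀ a b, t (a * b) = t a + t b := by
    intro a b
    show Multiplicative.toAdd (L (g (a * b))) = _
    rw [map_mul, map_mul, toAdd_mul]
  have hL : ∀ x : N, Multiplicative.toAdd (L x) = 0 → x = 1 := by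
    intro x hx
    have h1 : L x = 1 := hx
    exact (MulEquiv.map_eq_one_iff L).1 h1
  let β : Bn A n := ⟨_, ZND_coc A n r hrn s t hs ht⟩
  obtain ⟨v, hv⟩ : ∃ v : V, θ v ≠ 1 := by
    by_contra h
    push Not at h
    exact hθ (MonoidHom.ext h)
  have hsv : s (v : A) ≠ 0 := by
    intro h
    apply hv
    apply hL
    have : s (v : A) = Multiplicative.toAdd (L (θ v)) := by
      show Multiplicative.toAdd (L (θ (f (v : A)))) = _
      rw [hf1]
    rw [← this, h]
  have htx : t ((θ v : N) : A) ≠ 0 := by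
    intro h
    apply hv
    apply hL
    have : t ((θ v : N) : A) = Multiplicative.toAdd (L (θ v)) := by
      show Multiplicative.toAdd (L (g ((θ v : N) : A))) = _
      rw [hg2]
    rw [← this, h]
  have htv : t (v : A) = 0 := by
    show Multiplicative.toAdd (L (g (v : A))) = 0
    rw [hg1, map_one]; rfl
  -- the two elements
  let X : Cv A n := ⟨1, ((θ v : N) : A)⟩
  let Y : Cv A n := ⟨1, (v : A)⟩
  have hX : X ∈ N.comap (prC A n) := (θ v).2
  have hXY : X * Y = Y * X := hall X hX Y
  have h1 : (X * Y).z = (Y * X).z := by rw [hXY]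
  rw [Cv.mul_z, Cv.mul_z] at h1
  have h2 : uB n ((θ v : N) : A) (v : A) = uB n (v : A) ((θ v : N) : A) := by
    have h3 : X.z * Y.z = 1 := by
      show (1 : Zn A n) * 1 = 1
      rw [mul_one]
    have h4 : Y.z * X.z = 1 := by
      show (1 : Zn A n) * 1 = 1
      rw [mul_one]
    rw [h3, one_mul, one_mul] at h1
    exact h1
  have h5 := congrArg (fun z : Zn A n => z.1 β) h2
  have h6 : Circle.toUnits (ZMod.toCircle (s ((θ v : N) : A) * t (v : A))) =
      Circle.toUnits (ZMod.toCircle (s (v : A) * t ((θ v : N) : A))) := h5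
  rw [htv, mul_zero] at h6
  have h7 : (Circle.toUnits (ZMod.toCircle (0 : ZMod r)) : ℂ) =
      (Circle.toUnits (ZMod.toCircle (s (v : A) * t ((θ v : N) : A))) : ℂ) := by rw [h6]
  have h8 : ZMod.toCircle (0 : ZMod r) = ZMod.toCircle (s (v : A) * t ((θ v : N) : A)) :=
    Circle.ext h7
  have h9 := ZMod.injective_toCircle h8
  exact (mul_ne_zero hsv htx) h9.symm

end Pool.Agent.DR
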