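import Mathlib
import Pool.Agent.helper35.DR.SpecZ
import Pool.Agent.helper35.DR.SpecA

set_option autoImplicit false

namespace Pool.Agent.DR

open Pool.Agent.helper58.DC Pool.Agent.DI

theorem FIN_ind (hFST : FST_stmt) (p : ℕ) [Fact p.Prime] (M : Ideal (integralClosure ℤ ℂ))
    (hM : M.IsMaximal) (hpM : (p : integralClosure ℤ ℂ) ∈ M)
    (𝒞 : (A : Type) → [Group A] → Prop)
    (hsub : ∀ (A : Type) [Group A] (H : Subgroup A), 𝒞 A → 𝒞 H)
    (hquo : ∀ (A B : Type) [Group A] [Group B] (f : A →* B), Function.Surjective f → 𝒞 A → 𝒞 B)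
    (hred : ∀ (A : Type) [Group A] [Finite A], 𝒞 A → Red p A → InvFor p M A) :
    ∀ (n : ℕ) (A : Type) [Group A] [Finite A], Nat.card A = n → 𝒞 A → InvFor p M A := by
  intro n
  induction n using Nat.strong_induction_on with
  | _ n ih =>
    intro A _ _ hn hA G E A' _ _ _ _ _ X hiso hop χ hχ hdef d U
    obtain ⟨e⟩ := hiso
    have : Finite A' := Finite.of_equiv A e.symm.toEquiv
    have hcard : Nat.card A' = n := by rw [← hn]; exact Nat.card_congr e.toEquiv
    have hA' : 𝒞 A' := hquo A A' e.symm.toMonoidHom e.symm.surjective hA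
    by_cases hR : Red p A'
    · exact hred A' hA' hR G E A' X ⟨MulEquiv.refl A'⟩ hop χ hχ hdef d U
    · refine hFST p M hM hpM G E A' X hR ?_ ?_ hop χ hχ hdef d U
      · intro V hV
        have h1 : Nat.card V < n := by
          rw [← hcard]
          refine lt_of_le_of_ne (Subgroup.card_le_card_group V) ?_
          intro h
          exact hV (Subgroup.eq_top_of_card_eq V h)
        exact ih (Nat.card V) h1 V rfl (hsub A' V hA')
      · intro N hNn hN
        have := hNn
        have h1 : Nat.card (A' ⧸ N) < n := by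
          rw [← hcard, Subgroup.card_eq_card_quotient_mul_card_subgroup N]
          have h2 : 1 < Nat.card N := (Subgroup.one_lt_card_iff_ne_bot N).2 hN
          have h3 : 0 < Nat.card (A' ⧸ N) := Nat.card_pos
          exact lt_mul_of_one_lt_right h3 h2
        exact ih (Nat.card (A' ⧸ N)) h1 (A' ⧸ N) rfl
          (hquo A' (A' ⧸ N) (QuotientGroup.mk' N) (QuotientGroup.mk'_surjective N) hA')

theorem FIN (hFST : FST_stmt) (hFTR : FTR_stmt) (hRCY : RCY_stmt) (hHYC : HYC_stmt) :
    FIN_stmt := by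
  intro p _ M hM hpM
  refine ⟨?_, ?_⟩
  · intro 𝒞 hsub hquo hred A _ _ hA
    exact FIN_ind hFST p M hM hpM 𝒞 hsub hquo hred (Nat.card A) A rfl hA
  · intro hO A _ _ hA
    refine FIN_ind hFST p M hM hpM
      (fun (B : Type) [Group B] => Finite B ∧ ∃ P : Subgroup B, IsPGroup p P ∧ CycQ P)
      ?_ ?_ ?_ (Nat.card A) A rfl ⟨inferInstance, hA⟩
    · intro B _ H hB
      obtain ⟨hB1, hB2⟩ := hB
      have := hB1
      exact ⟨inferInstance, (hHYC p).1 B H hB2⟩
    · intro B C _ _ f hf hB
      obtain ⟨hB1, hB2⟩ := hB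
      have := hB1
      exact ⟨Finite.of_surjective f hf, (hHYC p).2 B C f hf hB2⟩
    · intro B _ _ hB hR
      exact hFTR p M hO B (hRCY p B hR hB.2)

end Pool.Agent.DR
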